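import Pool.Agent.Helper61.NW.Goals

set_option autoImplicit false

namespace Pool.Agent.Helper85.NW.CYL

open Pool.Agent.Helper52.Wq2 Pool.Agent.Helper61.NW

/-- The numerator of the row of a route. -/
def nu (D : ℕ) (a b L t : ℤ) : ℤ :=
  (6 * ((D : ℤ) + 1) * a + 3 * (b - a + D) + 1) * (L - t) +
    (6 * ((D : ℤ) + 1) * b + 3 * (a - b + D) + 1) * t

/-- The row of a route. -/
def rr (D : ℕ) (a b L t : ℤ) : ℤ := nu D a b L t / L

theorem rr_zero (D : ℕ) (a b L : ℤ) (hL : 0 < L) :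
    rr D a b L 0 = 6 * ((D : ℤ) + 1) * a + 3 * (b - a + D) + 1 := by
  unfold rr nu
  rw [sub_zero, mul_zero, add_zero]
  exact Int.mul_ediv_cancel _ hL.ne'

theorem rr_L (D : ℕ) (a b L : ℤ) (hL : 0 < L) :
    rr D a b L L = 6 * ((D : ℤ) + 1) * b + 3 * (a - b + D) + 1 := by
  unfold rr nu
  rw [sub_self, mul_zero, zero_add]
  exact Int.mul_ediv_cancel _ hL.ne'

theorem rr_step (D : ℕ) (a b L t : ℤ) (hL : 0 < L) (hab : |a - b| ≤ D)
    (hW : 6 * ((D : ℤ) + 1) ^ 2 ≤ L) :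
    rr D a b L (t + 1) ≤ rr D a b L t + 1 ∧ rr D a b L t ≤ rr D a b L (t + 1) + 1 := by
  rw [abs_le] at hab
  have hD : (0 : ℤ) ≤ D := Int.natCast_nonneg D
  have e : nu D a b L (t + 1) = nu D a b L t + 6 * D * (b - a) := by
    unfold nu; ring
  have h1 : 6 * (D : ℤ) * (b - a) ≤ L := by nlinarith
  have h2 : -L ≤ 6 * (D : ℤ) * (b - a) := by nlinarith
  unfold rr
  constructor
  · rw [← Int.add_mul_ediv_right _ 1 hL.ne']
    exact Int.ediv_le_ediv hL (by linarith)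
  · rw [← Int.add_mul_ediv_right _ 1 hL.ne']
    exact Int.ediv_le_ediv hL (by linarith)

theorem rr_lt (D : ℕ) (a b a' b' L t : ℤ) (hL : 0 < L) (ha : a < a') (hb : b ≤ b')
    (h0 : 0 ≤ t) (h1 : t ≤ L) : rr D a b L t + 3 ≤ rr D a' b' L t := by
  have hD : (0 : ℤ) ≤ D := Int.natCast_nonneg D
  unfold rr
  rw [← Int.add_mul_ediv_right _ 3 hL.ne']
  refine Int.ediv_le_ediv hL ?_
  unfold nu
  have hx : 0 ≤ (D : ℤ) * (a' - a) := mul_nonneg hD (by linarith)
  have hy : 0 ≤ (D : ℤ) * (b' - b) := mul_nonneg hD (by linarith)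
  have h2 : 3 ≤ (6 * ((D : ℤ) + 1) * a' + 3 * (b' - a' + D) + 1) -
      (6 * ((D : ℤ) + 1) * a + 3 * (b - a + D) + 1) := by nlinarith
  have h3 : 3 ≤ (6 * ((D : ℤ) + 1) * b' + 3 * (a' - b' + D) + 1) -
      (6 * ((D : ℤ) + 1) * b + 3 * (a - b + D) + 1) := by nlinarith
  nlinarith [mul_le_mul_of_nonneg_right h2 (sub_nonneg.2 h1), mul_le_mul_of_nonneg_right h3 h0]

/-- The width of a gap. -/
def wd (n M : ℕ) (W : ℤ) (j : ZMod n) : ℤ := if j.val + 1 < n then W else M - W * (n - 1)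

/-- The column of a point. -/
def cl {n : ℕ} (M : ℕ) (W : ℤ) (j : ZMod n) (t : ℤ) : ZMod M := ((W * j.val + t : ℤ) : ZMod M)

theorem wd_ge {n M : ℕ} [NeZero n] {W : ℤ} (hM : n * W ≤ M) (j : ZMod n) : W ≤ wd n M W j := by
  unfold wd
  split_ifs
  · exact le_rfl
  · linarith

theorem wd_le {n M : ℕ} [NeZero n] {W : ℤ} (hW : 0 < W) (hM : n * W ≤ M) (j : ZMod n) :
    W * j.val + wd n M W j ≤ M := by
  have hj := ZMod.val_lt j
  unfold wd
  split_ifs with h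
  · have : ((j.val : ℤ) + 1) ≤ n := by exact_mod_cast h.le
    nlinarith
  · have : ((j.val : ℤ)) = n - 1 := by omega
    rw [this]
    linarith

theorem cast_inj {M : ℕ} {u v : ℤ} (hu : 0 ≤ u) (hu' : u < M) (hv : 0 ≤ v) (hv' : v < M)
    (h : (u : ZMod M) = (v : ZMod M)) : u = v := by
  rw [ZMod.intCast_eq_intCast_iff_dvd_sub] at h
  have := Int.eq_zero_of_abs_lt_dvd h (by rw [abs_lt]; constructor <;> linarith)
  linarith

theorem cl_inj {n M : ℕ} [NeZero n] {W : ℤ} (hW : 0 < W) (hM : n * W ≤ M) {j j' : ZMod n}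
    {t t' : ℤ} (h0 : 0 ≤ t) (h1 : t < wd n M W j) (h0' : 0 ≤ t') (h1' : t' < wd n M W j')
    (h : cl M W j t = cl M W j' t') : j = j' ∧ t = t' := by
  have e := cast_inj (by positivity) (by linarith [wd_le hW hM j]) (by positivity)
    (by linarith [wd_le hW hM j']) h
  have key : ∀ (i i' : ZMod n) (s s' : ℤ), 0 ≤ s → s < wd n M W i → 0 ≤ s' →
      W * i.val + s = W * i'.val + s' → ¬ i.val < i'.val := by
    intro i i' s s' hs hs1 hs' he hlt
    have hi' := ZMod.val_lt i'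
    have hw : wd n M W i = W := by
      unfold wd
      rw [if_pos (by omega)]
    rw [hw] at hs1
    have : ((i.val : ℤ) + 1) ≤ i'.val := by exact_mod_cast hlt
    nlinarith
  have h2 := key j j' t t' h0 h1 h0' e
  have h3 := key j' j t' t h0' h1' h0 e.symm
  have h4 : j.val = j'.val := by omega
  have h5 : j = j' := ZMod.val_injective n h4
  refine ⟨h5, ?_⟩
  rw [h4] at e
  linarith

theorem cl_next {n M : ℕ} (hn : 3 ≤ n) {W : ℤ} (j : ZMod n) :
    cl M W j (wd n M W j) = cl M W (j + 1) 0 := by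
  have : NeZero n := ⟨by omega⟩
  have : Fact (1 < n) := ⟨by omega⟩
  have hj := ZMod.val_lt j
  have hv := ZMod.val_add j 1
  rw [ZMod.val_one n] at hv
  unfold cl wd
  split_ifs with h
  · rw [Nat.mod_eq_of_lt h] at hv
    rw [hv]
    congr 1
    push_cast
    ring
  · have e : j.val + 1 = n := by omega
    rw [e, Nat.mod_self] at hv
    rw [hv]
    have e2 : ((j.val : ℤ)) = n - 1 := by omega
    rw [e2]
    have e3 : W * ((n : ℤ) - 1) + ((M : ℤ) - W * ((n : ℤ) - 1)) = M := by ring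
    rw [e3]
    simp

theorem cl_succ {n : ℕ} (M : ℕ) (W : ℤ) (j : ZMod n) (t : ℤ) :
    cl M W j (t + 1) = cl M W j t + 1 := by
  unfold cl
  push_cast
  ring

theorem conn_common {V ι : Type*} {G : SimpleGraph V} (s : ι → Set V) (x : V) (i₀ : ι)
    (h : ∀ i, Conn G (s i)) (hx : ∀ i, x ∈ s i) : Conn G {v | ∃ i, v ∈ s i} := by
  refine ⟨⟨x, i₀, hx i₀⟩, ?_⟩
  intro A hA hne hcl
  have key : ∀ i, (∃ y ∈ A, y ∈ s i) → s i ⊆ A := by
    rintro i ⟨y, hy, hys⟩ z hz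
    exact ((h i).2 (A ∩ s i) Set.inter_subset_right ⟨y, hy, hys⟩
      (fun a ha b hb hab => ⟨hcl a ha.1 b ⟨i, hb⟩ hab, hb⟩) hz).1
  obtain ⟨y, hy⟩ := hne
  obtain ⟨i, hi⟩ := hA hy
  have hxA : x ∈ A := key i ⟨y, hy, hi⟩ (hx i)
  rintro z ⟨k, hk⟩
  exact key k ⟨x, hxA, hx k⟩ hk

theorem adj_v {M : ℕ} (y : ℤ) (c : ZMod M) : (Cyl M).Adj (y, c) (y + 1, c) := by
  unfold Cyl
  rw [SimpleGraph.fromRel_adj]
  refine ⟨?_, Or.inl (Or.inl ⟨rfl, rfl⟩)⟩
  intro h
  have := congrArg Prod.fst h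
  simp at this

theorem adj_h {M : ℕ} (hM : 2 ≤ M) (y : ℤ) (c : ZMod M) : (Cyl M).Adj (y, c) (y, c + 1) := by
  have : Fact (1 < M) := ⟨by omega⟩
  unfold Cyl
  rw [SimpleGraph.fromRel_adj]
  refine ⟨?_, Or.inl (Or.inr ⟨rfl, rfl⟩)⟩
  intro h
  have := congrArg Prod.snd h
  simp at this

/-- The block of a vertex. -/
def KK {n : ℕ} (D M : ℕ) (W : ℤ) (v : ℤ × ZMod n) : Set (ℤ × ZMod M) :=
  {p | ∃ y, (6 * ((D : ℤ) + 1) * v.1 ≤ y ∧ y < 6 * ((D : ℤ) + 1) * v.1 + 6 * ((D : ℤ) + 1)) ∧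
    (y, cl M W v.2 0) = p}

/-- The route of an edge. -/
def TT {n : ℕ} (D M : ℕ) (W : ℤ) (v : ℤ × ZMod n) (b : ℤ) : Set (ℤ × ZMod M) :=
  {p | ∃ t y, 0 < t ∧ t < wd n M W v.2 ∧
    ((rr D v.1 b (wd n M W v.2) t ≤ y ∧ y ≤ rr D v.1 b (wd n M W v.2) (t + 1)) ∨
      (rr D v.1 b (wd n M W v.2) (t + 1) ≤ y ∧ y ≤ rr D v.1 b (wd n M W v.2) t)) ∧
    (y, cl M W v.2 t) = p}

theorem conn_KK {n : ℕ} (D M : ℕ) (W : ℤ) (v : ℤ × ZMod n) : Conn (Cyl M) (KK D M W v) := by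
  have hD : (0 : ℤ) ≤ D := Int.natCast_nonneg D
  refine conn_line (G := Cyl M) (fun y => (y, cl M W v.2 0)) _ (6 * ((D : ℤ) + 1) * v.1) ?_ ?_ ?_ ?_
  · constructor
    · exact le_rfl
    · linarith
  · rintro x hx ⟨h1, h2⟩
    exact ⟨hx, by linarith⟩
  · rintro x hx ⟨h1, h2⟩
    constructor <;> linarith
  · intro x _ _
    exact adj_v _ _

theorem conn_TT {n : ℕ} (D M : ℕ) (hM : 2 ≤ M) (W : ℤ) (v : ℤ × ZMod n) (b : ℤ)
    (h2 : 2 ≤ wd n M W v.2) : Conn (Cyl M) (TT D M W v b) := by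
  set L := wd n M W v.2 with hL
  obtain ⟨k, hk⟩ : ∃ k : ℕ, L = k + 2 := ⟨(L - 2).toNat, by omega⟩
  have h := conn_chain (G := Cyl M) (fun i : ℕ => {p : ℤ × ZMod M | ∃ y,
    ((rr D v.1 b L (i + 1) ≤ y ∧ y ≤ rr D v.1 b L (i + 2)) ∨
      (rr D v.1 b L (i + 2) ≤ y ∧ y ≤ rr D v.1 b L (i + 1))) ∧ (y, cl M W v.2 (i + 1)) = p}) k ?_ ?_
  · have e : TT D M W v b = {p : ℤ × ZMod M | ∃ i : ℕ, i ≤ k ∧ p ∈ {p : ℤ × ZMod M | ∃ y,
        ((rr D v.1 b L (i + 1) ≤ y ∧ y ≤ rr D v.1 b L (i + 2)) ∨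
        (rr D v.1 b L (i + 2) ≤ y ∧ y ≤ rr D v.1 b L (i + 1))) ∧
        (y, cl M W v.2 (i + 1)) = p}} := by
      ext p
      constructor
      · rintro ⟨t, y, ht0, ht1, hy, rfl⟩
        obtain ⟨i, hi⟩ : ∃ i : ℕ, t = i + 1 := ⟨(t - 1).toNat, by omega⟩
        subst hi
        refine ⟨i, by omega, y, ?_, rfl⟩
        have e1 : (i : ℤ) + 1 + 1 = i + 2 := by ring
        rw [e1] at hy
        exact hy
      · rintro ⟨i, hi, y, hy, rfl⟩
        refine ⟨i + 1, y, by omega, by omega, ?_, rfl⟩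
        have e1 : (i : ℤ) + 1 + 1 = i + 2 := by ring
        rw [e1]
        exact hy
    rw [e]
    exact h
  · intro i _
    refine conn_line (G := Cyl M) (fun y => (y, cl M W v.2 (i + 1))) _ (rr D v.1 b L (i + 1))
      ?_ ?_ ?_ ?_
    · rcases le_total (rr D v.1 b L (i + 1)) (rr D v.1 b L (i + 2)) with h | h
      · exact Or.inl ⟨le_rfl, h⟩
      · exact Or.inr ⟨h, le_rfl⟩
    · intro x hx h
      omega
    · intro x hx h
      omega
    · intro x _ _
      exact adj_v _ _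
  · intro i _
    refine ⟨(rr D v.1 b L (i + 2), cl M W v.2 (i + 1)), ?_, (rr D v.1 b L (i + 2), cl M W v.2 (i + 1) + 1), ?_, adj_h hM _ _⟩
    · refine ⟨_, ?_, rfl⟩
      rcases le_total (rr D v.1 b L (i + 1)) (rr D v.1 b L (i + 2)) with h | h
      · exact Or.inl ⟨h, le_rfl⟩
      · exact Or.inr ⟨le_rfl, h⟩
    · refine ⟨rr D v.1 b L (i + 2), ?_, ?_⟩
      · have e1 : ((i + 1 : ℕ) : ℤ) + 1 = i + 2 := by push_cast; ring
        rw [e1]
        rcases le_total (rr D v.1 b L (i + 2)) (rr D v.1 b L (((i + 1 : ℕ) : ℤ) + 2)) with h | h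
        · exact Or.inl ⟨le_rfl, h⟩
        · exact Or.inr ⟨h, le_rfl⟩
      · rw [← cl_succ]
        have e1 : ((i + 1 : ℕ) : ℤ) + 1 = i + 1 + 1 := by push_cast; ring
        rw [e1]

theorem cyl : CylStmt := by
  intro n hn D E hD hN
  have hDn : (0 : ℤ) ≤ D := Int.natCast_nonneg D
  have : NeZero n := ⟨by omega⟩
  refine ⟨n * (6 * (D + 1) ^ 2), fun M hM0 => ?_⟩
  set W : ℤ := 6 * ((D : ℤ) + 1) ^ 2 with hWdef
  have hM : (n : ℤ) * W ≤ M := by
    rw [hWdef]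
    exact_mod_cast hM0
  have hW : 6 ≤ W := by rw [hWdef]; nlinarith
  have hW0 : 0 < W := by linarith
  have hn3 : (3 : ℤ) ≤ n := by exact_mod_cast hn
  have hM2 : 2 ≤ M := by
    have : (2 : ℤ) ≤ M := by nlinarith
    exact_mod_cast this
  have hwd : ∀ j : ZMod n, W ≤ wd n M W j := wd_ge hM
  have hstep : ∀ (j : ZMod n) (a b : ℤ), |a - b| ≤ D → ∀ t,
      rr D a b (wd n M W j) (t + 1) ≤ rr D a b (wd n M W j) t + 1 ∧
      rr D a b (wd n M W j) t ≤ rr D a b (wd n M W j) (t + 1) + 1 := by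
    intro j a b hab t
    exact rr_step D a b _ t (by linarith [hwd j]) hab (hwd j)
  refine ⟨fun v => {p | ∃ o : Option {b // E v.2 v.1 b}, p ∈ (match o with
    | none => KK D M W v
    | some b => KK D M W v ∪ TT D M W v b.1)}, ?_, ?_, ?_⟩
  · intro v
    refine conn_common _ (6 * ((D : ℤ) + 1) * v.1, cl M W v.2 0) none ?_ ?_
    · rintro (_ | ⟨b, hb⟩)
      · exact conn_KK D M W v
      · have h0 := rr_zero D v.1 b (wd n M W v.2) (by linarith [hwd v.2])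
        have h1 := hstep v.2 v.1 b (hD _ _ _ hb) 0
        have h2 := hD _ _ _ hb
        rw [abs_le] at h2
        rw [h0] at h1
        refine Conn.union (conn_KK D M W v) (conn_TT D M hM2 W v b (by linarith [hwd v.2]))
          (a := (rr D v.1 b (wd n M W v.2) (0 + 1), cl M W v.2 0))
          (b := (rr D v.1 b (wd n M W v.2) (0 + 1), cl M W v.2 0 + 1)) ?_ ?_ (adj_h hM2 _ _)
        · refine ⟨_, ⟨?_, ?_⟩, rfl⟩
          · linarith
          · linarith
        · refine ⟨1, rr D v.1 b (wd n M W v.2) (0 + 1), one_pos, by linarith [hwd v.2], ?_, ?_⟩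
          · rw [zero_add]
            rcases le_total (rr D v.1 b (wd n M W v.2) 1) (rr D v.1 b (wd n M W v.2) (1 + 1))
              with h | h
            · exact Or.inl ⟨le_rfl, h⟩
            · exact Or.inr ⟨h, le_rfl⟩
          · rw [← cl_succ, zero_add]
    · have hK : (6 * ((D : ℤ) + 1) * v.1, cl M W v.2 0) ∈ KK D M W v :=
        ⟨_, ⟨le_rfl, by linarith⟩, rfl⟩
      rintro (_ | ⟨b, hb⟩)
      · exact hK
      · exact Or.inl hK
  · have mem : ∀ (v : ℤ × ZMod n) (p : ℤ × ZMod M), (∃ o : Option {b // E v.2 v.1 b},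
        p ∈ (match o with
        | none => KK D M W v
        | some b => KK D M W v ∪ TT D M W v b.1)) →
        p ∈ KK D M W v ∨ ∃ b, E v.2 v.1 b ∧ p ∈ TT D M W v b := by
      rintro v p ⟨_ | ⟨b, hb⟩, h⟩
      · exact Or.inl h
      · rcases h with h | h
        · exact Or.inl h
        · exact Or.inr ⟨b, hb, h⟩
    intro v w p hp hq
    rcases mem v p hp with hp | ⟨b, hb, hp⟩ <;> rcases mem w p hq with hq | ⟨b', hb', hq⟩
    · obtain ⟨y, ⟨h1, h2⟩, rfl⟩ := hp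
      obtain ⟨y', ⟨h1', h2'⟩, he⟩ := hq
      obtain ⟨e1, e2⟩ := Prod.ext_iff.1 he
      simp only at e1 e2
      subst e1
      obtain ⟨e3, -⟩ := cl_inj hW0 hM le_rfl (by linarith [hwd w.2]) le_rfl
        (by linarith [hwd v.2]) e2
      have h3 : ¬ v.1 < w.1 := by
        intro hlt
        nlinarith
      have h4 : ¬ w.1 < v.1 := by
        intro hlt
        nlinarith
      exact Prod.ext (by omega) e3.symm
    · obtain ⟨y, ⟨h1, h2⟩, rfl⟩ := hp
      obtain ⟨t, y', ht0, ht1, -, he⟩ := hq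
      obtain ⟨e1, e2⟩ := Prod.ext_iff.1 he
      simp only at e1 e2
      obtain ⟨-, e3⟩ := cl_inj hW0 hM ht0.le ht1 le_rfl (by linarith [hwd v.2]) e2
      omega
    · obtain ⟨t, y', ht0, ht1, -, rfl⟩ := hp
      obtain ⟨y, ⟨h1, h2⟩, he⟩ := hq
      obtain ⟨e1, e2⟩ := Prod.ext_iff.1 he
      simp only at e1 e2
      obtain ⟨-, e3⟩ := cl_inj hW0 hM le_rfl (by linarith [hwd w.2]) ht0.le ht1 e2
      omega
    · obtain ⟨t, y, ht0, ht1, hy, rfl⟩ := hp
      obtain ⟨t', y', ht0', ht1', hy', he⟩ := hq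
      obtain ⟨e1, e2⟩ := Prod.ext_iff.1 he
      simp only at e1 e2
      subst e1
      obtain ⟨e3, e4⟩ := cl_inj hW0 hM ht0'.le ht1' ht0.le ht1 e2
      subst e4
      obtain ⟨a, j⟩ := v
      obtain ⟨a', j'⟩ := w
      simp only at *
      subst e3
      have s1 := hstep j' a b (hD _ _ _ hb) t'
      have s2 := hstep j' a' b' (hD _ _ _ hb') t'
      have hLp : 0 < wd n M W j' := by linarith [hwd j']
      by_cases haa : a = a'
      · rw [haa]
      · exfalso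
        rcases lt_or_gt_of_ne haa with hlt | hlt
        · have hbb := hN _ _ _ _ _ hb hb' hlt
          have r1 := rr_lt D a b a' b' _ t' hLp hlt hbb ht0'.le ht1'.le
          have r2 := rr_lt D a b a' b' _ (t' + 1) hLp hlt hbb (by linarith) (by linarith)
          omega
        · have hbb := hN _ _ _ _ _ hb' hb hlt
          have r1 := rr_lt D a' b' a b _ t' hLp hlt hbb ht0'.le ht1'.le
          have r2 := rr_lt D a' b' a b _ (t' + 1) hLp hlt hbb (by linarith) (by linarith)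
          omega
  · have key : ∀ v w : ℤ × ZMod n, ((w.2 = v.2 ∧ w.1 = v.1 + 1) ∨ (w.2 = v.2 + 1 ∧ E v.2 v.1 w.1)) →
        ∃ p q : ℤ × ZMod M, (∃ o : Option {b // E v.2 v.1 b}, p ∈ (match o with
          | none => KK D M W v
          | some b => KK D M W v ∪ TT D M W v b.1)) ∧ (∃ o : Option {b // E w.2 w.1 b},
          q ∈ (match o with
          | none => KK D M W w
          | some b => KK D M W w ∪ TT D M W w b.1)) ∧ (Cyl M).Adj p q := by
      rintro ⟨a, j⟩ ⟨b, j'⟩ h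
      simp only at h
      rcases h with ⟨rfl, rfl⟩ | ⟨rfl, h⟩
      · refine ⟨(6 * ((D : ℤ) + 1) * a + 6 * ((D : ℤ) + 1) - 1, cl M W j' 0),
          (6 * ((D : ℤ) + 1) * a + 6 * ((D : ℤ) + 1) - 1 + 1, cl M W j' 0), ⟨none, ?_⟩,
          ⟨none, ?_⟩, adj_v _ _⟩
        · exact ⟨_, ⟨by simp only; linarith, by simp only; linarith⟩, rfl⟩
        · exact ⟨_, ⟨by simp only; linarith, by simp only; linarith⟩, rfl⟩
      · have hL : 0 < wd n M W j := by linarith [hwd j]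
        have h0 := rr_L D a b (wd n M W j) hL
        have h2 := hD _ _ _ h
        rw [abs_le] at h2
        refine ⟨(rr D a b (wd n M W j) (wd n M W j), cl M W j (wd n M W j - 1)),
          (rr D a b (wd n M W j) (wd n M W j), cl M W j (wd n M W j - 1) + 1), ⟨some ⟨b, h⟩, ?_⟩,
          ⟨none, ?_⟩, adj_h hM2 _ _⟩
        · refine Or.inr ⟨wd n M W j - 1, _, by linarith [hwd j], by linarith, ?_, rfl⟩
          simp only
          rw [sub_add_cancel]
          rcases le_total (rr D a b (wd n M W j) (wd n M W j - 1))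
            (rr D a b (wd n M W j) (wd n M W j)) with h | h
          · exact Or.inl ⟨h, le_rfl⟩
          · exact Or.inr ⟨le_rfl, h⟩
        · refine ⟨rr D a b (wd n M W j) (wd n M W j), ?_, ?_⟩
          · rw [h0]
            simp only
            constructor <;> linarith
          · rw [← cl_succ, sub_add_cancel, cl_next hn]
    intro v w hvw
    rw [SimpleGraph.fromRel_adj] at hvw
    rcases hvw.2 with h | h
    · obtain ⟨p, q, hp, hq, hpq⟩ := key v w h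
      exact ⟨p, hp, q, hq, hpq⟩
    · obtain ⟨p, q, hp, hq, hpq⟩ := key w v h
      exact ⟨q, hq, p, hp, hpq.symm⟩

end Pool.Agent.Helper85.NW.CYL

/-- CYL. -/
theorem Pool.Agent.Helper85.NW.cyl : Pool.Agent.Helper61.NW.CylStmt :=
  Pool.Agent.Helper85.NW.CYL.cyl
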